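import Pool.Agent.N173.BG.Stm
import Pool.Agent.TH858.CB.Main

/-!
Project BG (helper173), part CVX (helper667): the intermediate set of the polynomial Bogolyubov argument is a convex
Bohr set in dimension `2 k + 1`, hence contains a Bohr set.
-/

set_option autoImplicit false

namespace Pool.Agent.N667.BG

open Finset Pool.Agent.TH858 Pool.Agent.TH858.GP Pool.Agent.N173.BG

/-- The convex set. -/
def KS (k : ℕ) (ρ : ℝ) (w : Fin (k + 1) → Fin k → ℝ) : Set (Fin (k + (k + 1)) → ℝ) :=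
  {y | (∀ l : Fin k, |y (Fin.castAdd (k + 1) l)| ≤ ρ) ∧
    ∀ j : Fin (k + 1), y (Fin.natAdd k j) = ∑ l, w j l * y (Fin.castAdd (k + 1) l)}

lemma KS_convex (k : ℕ) (ρ : ℝ) (w : Fin (k + 1) → Fin k → ℝ) : Convex ℝ (KS k ρ w) := by
  intro y hy z hz a b ha hb hab
  refine ⟨fun l => ?_, fun j => ?_⟩
  · rw [Pi.add_apply, Pi.smul_apply, Pi.smul_apply, smul_eq_mul, smul_eq_mul]
    calc |a * y (Fin.castAdd (k + 1) l) + b * z (Fin.castAdd (k + 1) l)|
        ≤ |a * y (Fin.castAdd (k + 1) l)| + |b * z (Fin.castAdd (k + 1) l)| := abs_add_le _ _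
      _ = a * |y (Fin.castAdd (k + 1) l)| + b * |z (Fin.castAdd (k + 1) l)| := by
          rw [abs_mul, abs_mul, abs_of_nonneg ha, abs_of_nonneg hb]
      _ ≤ a * ρ + b * ρ :=
          add_le_add (mul_le_mul_of_nonneg_left (hy.1 l) ha) (mul_le_mul_of_nonneg_left (hz.1 l) hb)
      _ = ρ := by rw [← add_mul, hab, one_mul]
  · rw [Pi.add_apply, Pi.smul_apply, Pi.smul_apply, smul_eq_mul, smul_eq_mul, hy.2 j, hz.2 j, mul_sum, mul_sum,
      ← sum_add_distrib]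
    refine sum_congr rfl fun l _ => ?_
    rw [Pi.add_apply, Pi.smul_apply, Pi.smul_apply, smul_eq_mul, smul_eq_mul]
    ring

lemma KS_symm (k : ℕ) (ρ : ℝ) (w : Fin (k + 1) → Fin k → ℝ) : ∀ y ∈ KS k ρ w, -y ∈ KS k ρ w := by
  intro y hy
  refine ⟨fun l => ?_, fun j => ?_⟩
  · rw [Pi.neg_apply, abs_neg]
    exact hy.1 l
  · rw [Pi.neg_apply, hy.2 j, ← sum_neg_distrib]
    refine sum_congr rfl fun l _ => ?_
    rw [Pi.neg_apply]
    ring

/-- The relation of the small representatives. -/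
lemma rel {N : ℕ} [NeZero N] {k H J : ℕ} (hJ : (k + 1) * H ≤ J) (hJ0 : 1 ≤ J) (Λ : Fin k → ZMod N) (g x : ZMod N)
    (n : ℤ) (m : Fin k → ℤ) (hn1 : 1 ≤ n) (hn2 : n < H) (hm : ∀ i, |m i| < H)
    (hr : (n : ZMod N) * g = ∑ i, (m i : ZMod N) * Λ i) (u : ℝ) (v : Fin k → ℝ)
    (hu : ∃ z : ℤ, u = ((g * x).val : ℝ) / N + z) (hv : ∀ l, ∃ z : ℤ, v l = ((Λ l * x).val : ℝ) / N + z)
    (hu1 : |u| ≤ 1 / (100 * J)) (hv1 : ∀ l, |v l| ≤ 1 / (100 * J)) : (n : ℝ) * u = ∑ l, (m l : ℝ) * v l := by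
  have hN : (N : ℝ) ≠ 0 := Nat.cast_ne_zero.mpr (NeZero.ne N)
  have hJ' : (0 : ℝ) < J := by exact_mod_cast hJ0
  obtain ⟨z0, hz0⟩ := hu
  choose z hz using hv
  have h1 : (((n * ((g * x).val : ℤ) - ∑ l, m l * ((Λ l * x).val : ℤ) : ℤ)) : ZMod N) = 0 := by
    push_cast
    simp only [ZMod.natCast_val, ZMod.cast_id', id_eq]
    rw [← mul_assoc, hr, sum_mul, sub_eq_zero]
    refine sum_congr rfl fun l _ => ?_
    ring
  rw [ZMod.intCast_zmod_eq_zero_iff_dvd] at h1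
  obtain ⟨c, hc⟩ := h1
  have h2 : (n : ℝ) * u - ∑ l, (m l : ℝ) * v l = ((c + n * z0 - ∑ l, m l * z l : ℤ) : ℝ) := by
    have h3 : (n : ℝ) * ((g * x).val : ℝ) - ∑ l, (m l : ℝ) * ((Λ l * x).val : ℝ) = (N : ℝ) * c := by
      exact_mod_cast hc
    have h4 : ∑ l, (m l : ℝ) * v l = (∑ l, (m l : ℝ) * ((Λ l * x).val : ℝ)) / N + ∑ l, (m l : ℝ) * z l := by
      rw [sum_div, ← sum_add_distrib]
      refine sum_congr rfl fun l _ => ?_
      rw [hz]
      ring
    rw [h4, hz0]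
    push_cast
    have h5 : (c : ℝ) = ((n : ℝ) * ((g * x).val : ℝ) - ∑ l, (m l : ℝ) * ((Λ l * x).val : ℝ)) / N := by
      rw [h3]
      field_simp
    rw [h5]
    ring
  have h3 : |(n : ℝ) * u - ∑ l, (m l : ℝ) * v l| < 1 := by
    have hnn : (0 : ℝ) ≤ n := by exact_mod_cast (by omega : (0 : ℤ) ≤ n)
    have hnH : (n : ℝ) ≤ H := by exact_mod_cast hn2.le
    have e1 : |(n : ℝ) * u| ≤ H * (1 / (100 * J)) := by
      rw [abs_mul, abs_of_nonneg hnn]
      exact mul_le_mul hnH hu1 (abs_nonneg _) (by positivity)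
    have e2 : |∑ l, (m l : ℝ) * v l| ≤ k * (H * (1 / (100 * J))) := by
      calc |∑ l, (m l : ℝ) * v l| ≤ ∑ l, |(m l : ℝ) * v l| := abs_sum_le_sum_abs _ _
        _ ≤ ∑ _l : Fin k, (H : ℝ) * (1 / (100 * J)) := by
            refine sum_le_sum fun l _ => ?_
            rw [abs_mul]
            refine mul_le_mul ?_ (hv1 l) (abs_nonneg _) (by positivity)
            exact_mod_cast (hm l).le
        _ = k * (H * (1 / (100 * J))) := by simp
    have e3 : ((k : ℝ) + 1) * H ≤ J := by exact_mod_cast hJ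
    calc |(n : ℝ) * u - ∑ l, (m l : ℝ) * v l| ≤ |(n : ℝ) * u| + |∑ l, (m l : ℝ) * v l| := abs_sub _ _
      _ ≤ H * (1 / (100 * J)) + k * (H * (1 / (100 * J))) := add_le_add e1 e2
      _ = ((k : ℝ) + 1) * H * (1 / (100 * J)) := by ring
      _ ≤ J * (1 / (100 * J)) := mul_le_mul_of_nonneg_right e3 (by positivity)
      _ = 1 / 100 := by field_simp
      _ < 1 := by norm_num
  rw [h2] at h3
  have h4 : (c + n * z0 - ∑ l, m l * z l : ℤ) = 0 := by
    rw [← Int.abs_lt_one_iff]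
    exact_mod_cast h3
  rw [h4, Int.cast_zero] at h2
  linarith

lemma nn_rep {N : ℕ} [NeZero N] (c : ZMod N) : ∃ v : ℝ, |v| = CB.nn c ∧ ∃ z : ℤ, v = (c.val : ℝ) / N + z := by
  refine ⟨(c.val : ℝ) / N - ((round ((c.val : ℝ) / N) : ℤ) : ℝ), rfl, -round ((c.val : ℝ) / N), ?_⟩
  push_cast
  ring

theorem t_CVX (h : S_REP) : S_CVX := by
  classical
  intro N _ k H J G S Λ hS hH hJ hΛ hG hx
  choose! n m hn1 hn2 hm hr using hG
  have hJ0 : 1 ≤ J := by
    refine le_trans ?_ hJ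
    exact Nat.mul_pos (Nat.succ_pos k) (by omega)
  have hH0 : (0 : ℝ) < H := by exact_mod_cast (by omega : 0 < H)
  have hH3 : (3 : ℝ) ≤ H := by exact_mod_cast (by omega : 3 ≤ H)
  have hJR : (0 : ℝ) < J := by exact_mod_cast hJ0
  obtain ⟨t, w, hw, hiff⟩ := h N k Λ {g // g ∈ G} (fun g => (g : ZMod N)) (fun g => n g) (fun g => m g)
    (fun g => hn1 _ g.2) (fun g => hr _ g.2)
  obtain ⟨ρ, hρ⟩ : ∃ ρ : ℝ, ρ = 1 / (8 * ((k : ℝ) + 1) * H) := ⟨_, rfl⟩
  have hk0 : (0 : ℝ) ≤ k := Nat.cast_nonneg k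
  have hρ0 : 0 < ρ := by rw [hρ]; positivity
  have hρk : (k : ℝ) * H * ρ ≤ 1 / 8 := by
    have e1 : (8 * ((k : ℝ) + 1) * H) * ρ = 1 := by rw [hρ]; field_simp
    have e2 : 0 ≤ (H : ℝ) * ρ := by positivity
    nlinarith
  have hρ1 : (k : ℝ) * ρ ≤ 1 := by
    have e2 : 0 ≤ (k : ℝ) * ρ := by positivity
    nlinarith
  have hρH : ρ ≤ 1 := by
    have e1 : (8 * ((k : ℝ) + 1) * H) * ρ = 1 := by rw [hρ]; field_simp
    have e2 : 0 ≤ (H : ℝ) * ρ := by positivity
    have e3 : 0 ≤ (k : ℝ) * ((H : ℝ) * ρ) := by positivity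
    nlinarith
  have hJρ : 1 / (100 * (J : ℝ)) ≤ ρ := by
    rw [hρ]
    apply one_div_le_one_div_of_le (by positivity)
    have e3 : ((k : ℝ) + 1) * H ≤ J := by exact_mod_cast hJ
    nlinarith
  -- the set
  obtain ⟨A, hA⟩ : ∃ A : Finset (ZMod N), ∀ x, x ∈ A ↔ ∃ y ∈ KS k ρ w, ∀ i, |y i| ≤ (H : ℝ) ∧
      ∃ z : ℤ, y i = ((Fin.append Λ t i * x).val : ℝ) / N + z :=
    ⟨univ.filter fun x => ∃ y ∈ KS k ρ w, ∀ i, |y i| ≤ (H : ℝ) ∧
      ∃ z : ℤ, y i = ((Fin.append Λ t i * x).val : ℝ) / N + z, fun x => by simp⟩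
  have hsub : S ⊆ A := by
    intro x hxS
    have h1 : ∀ l, ∃ v : ℝ, |v| = CB.nn (Λ l * x) ∧ ∃ z : ℤ, v = ((Λ l * x).val : ℝ) / N + z :=
      fun l => nn_rep _
    choose v hv1 hv2 using h1
    have hv3 : ∀ l, |v l| ≤ 1 / (100 * J) := fun l => by
      rw [hv1]
      exact hx x hxS _ (hΛ l)
    have h2 := (hiff x v hv2).2 (fun g => by
      obtain ⟨u, hu1, hu2⟩ := nn_rep ((g : ZMod N) * x)
      have hu3 : |u| ≤ 1 / (100 * J) := by
        rw [hu1]
        exact hx x hxS _ g.2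
      have h3 := rel hJ hJ0 Λ g x (n g) (m g) (hn1 _ g.2) (hn2 _ g.2) (hm _ g.2) (hr _ g.2) u v hu2 hv2 hu3 hv3
      obtain ⟨z, hz⟩ := hu2
      refine ⟨-z, ?_⟩
      have hn0 : (n g : ℝ) ≠ 0 := by
        have := hn1 _ g.2
        have h4 : (n g : ℤ) ≠ 0 := by omega
        exact_mod_cast h4
      rw [← h3]
      push_cast
      have h5 : 1 / (n g : ℝ) * ((n g : ℝ) * u) = u := by field_simp
      rw [h5, hz]
      ring)
    have hsum : ∀ j, |∑ l, w j l * v l| ≤ (k : ℝ) * ρ := by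
      intro j
      calc |∑ l, w j l * v l| ≤ ∑ l, |w j l * v l| := abs_sum_le_sum_abs _ _
        _ ≤ ∑ _l : Fin k, ρ := by
            refine sum_le_sum fun l _ => ?_
            rw [abs_mul, abs_of_nonneg (hw j l).1]
            calc w j l * |v l| ≤ 1 * ρ :=
                  mul_le_mul (hw j l).2 ((hv3 l).trans hJρ) (abs_nonneg _) (by norm_num)
              _ = ρ := one_mul _
        _ = k * ρ := by simp
    rw [hA]
    refine ⟨Fin.append v (fun j => ∑ l, w j l * v l), ⟨fun l => ?_, fun j => ?_⟩, fun i => ?_⟩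
    · rw [Fin.append_left]
      exact (hv3 l).trans hJρ
    · rw [Fin.append_right]
      refine sum_congr rfl fun l _ => ?_
      rw [Fin.append_left]
    · refine Fin.addCases (fun l => ?_) (fun j => ?_) i
      · rw [Fin.append_left, Fin.append_left]
        refine ⟨?_, hv2 l⟩
        have := hv3 l
        linarith
      · rw [Fin.append_right, Fin.append_right]
        refine ⟨?_, ?_⟩
        · have := hsum j
          linarith
        · obtain ⟨z, hz⟩ := h2 j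
          refine ⟨-z, ?_⟩
          push_cast
          linarith
  have hAne : A.Nonempty := hS.mono hsub
  obtain ⟨Γ, hΓ1, hΓ2⟩ := CB.main (Fin.append Λ t) (KS k ρ w) (KS_convex k ρ w) (KS_symm k ρ w) (H : ℝ)
    (by
      have : ((2 * k + 3 : ℕ) : ℝ) ≤ H := by exact_mod_cast hH
      push_cast at this ⊢
      linarith) A hAne hA
  refine ⟨Γ, hΓ1.trans ?_, fun x hxΓ g hg => ?_⟩
  · have hN : (0 : ℝ) < N := Nat.cast_pos.mpr (NeZero.pos N)
    have hS0 : (0 : ℝ) < S.card := Nat.cast_pos.mpr hS.card_pos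
    have hA0 : (0 : ℝ) < A.card := Nat.cast_pos.mpr hAne.card_pos
    have hSA : (S.card : ℝ) ≤ A.card := by exact_mod_cast card_le_card hsub
    have hlog : Real.log ((N : ℝ) / A.card) ≤ Real.log ((N : ℝ) / S.card) := by
      apply Real.log_le_log (by positivity)
      exact div_le_div_of_nonneg_left hN.le hS0 hSA
    have hlogH : 0 < Real.log H := Real.log_pos (by linarith)
    have := div_le_div_of_nonneg_right hlog hlogH.le
    push_cast
    linarith
  · obtain ⟨y, hyK, hy⟩ := (hA x).1 (hΓ2 x hxΓ)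
    have hv : ∀ l, ∃ z : ℤ, y (Fin.castAdd (k + 1) l) = ((Λ l * x).val : ℝ) / N + z := by
      intro l
      have := (hy (Fin.castAdd (k + 1) l)).2
      rwa [Fin.append_left] at this
    obtain ⟨z, hz⟩ := (hiff x (fun l => y (Fin.castAdd (k + 1) l)) hv).1 (fun j => by
      obtain ⟨z, hz⟩ := (hy (Fin.natAdd k j)).2
      rw [Fin.append_right, hyK.2 j] at hz
      refine ⟨-z, ?_⟩
      push_cast
      linarith) ⟨g, hg⟩
    have hn1' : (1 : ℝ) ≤ n g := by exact_mod_cast hn1 g hg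
    have hb : |1 / (n g : ℝ) * ∑ l, (m g l : ℝ) * y (Fin.castAdd (k + 1) l)| ≤ 1 / 8 := by
      rw [abs_mul]
      have e1 : |1 / (n g : ℝ)| ≤ 1 := by
        rw [abs_of_nonneg (by positivity)]
        rw [div_le_one (by linarith)]
        exact hn1'
      have e2 : |∑ l, (m g l : ℝ) * y (Fin.castAdd (k + 1) l)| ≤ (k : ℝ) * H * ρ := by
        calc |∑ l, (m g l : ℝ) * y (Fin.castAdd (k + 1) l)|
            ≤ ∑ l, |(m g l : ℝ) * y (Fin.castAdd (k + 1) l)| := abs_sum_le_sum_abs _ _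
          _ ≤ ∑ _l : Fin k, (H : ℝ) * ρ := by
              refine sum_le_sum fun l _ => ?_
              rw [abs_mul]
              refine mul_le_mul ?_ (hyK.1 l) (abs_nonneg _) hH0.le
              exact_mod_cast (hm g hg l).le
          _ = k * H * ρ := by simp [mul_assoc]
      calc _ ≤ 1 * ((k : ℝ) * H * ρ) := mul_le_mul e1 e2 (abs_nonneg _) (by norm_num)
        _ ≤ 1 / 8 := by linarith
    have hval : (((g * x).val : ℝ) / N) =
        1 / (n g : ℝ) * ∑ l, (m g l : ℝ) * y (Fin.castAdd (k + 1) l) + ((z : ℤ) : ℝ) := by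
      have hz' : ((g * x).val : ℝ) / N - 1 / (n g : ℝ) * ∑ l, (m g l : ℝ) * y (Fin.castAdd (k + 1) l) = z := hz
      linarith
    have : CB.nn (g * x) ≤ 1 / 8 := by
      unfold CB.nn
      rw [hval, CB.nint_add_int, CB.nint_of_small (lt_of_le_of_lt hb (by norm_num))]
      exact hb
    linarith

end Pool.Agent.N667.BG
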